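import Pool.Agent.H73.G.RB.Q79.MD.CS

/-!
# Project MD (helper82), job MD-9: functions of the first row plus a quadratic form
-/

set_option autoImplicit false

namespace Pool.Agent.Q79.MD

open MeasureTheory Set Filter Topology
open Pool.Agent.W779.Morrey Pool.Agent.Q82.MD

/-- the row `r` -/
noncomputable def row (r : Fin 2) : E →L[ℝ] V :=
  ContinuousLinearMap.proj (R := ℝ) (φ := fun _ : Fin 2 => V) r

@[simp] theorem row_apply (r : Fin 2) (F : E) : row r F = F r := rfl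

/-- the matrix with the row `r` equal to `y`, the other row zero -/
noncomputable def emb (r : Fin 2) : V →L[ℝ] E :=
  ContinuousLinearMap.pi fun i => (if i = r then (1 : ℝ) else 0) • ContinuousLinearMap.id ℝ V

theorem emb_apply (r i : Fin 2) (y : V) : emb r y i = (if i = r then (1 : ℝ) else 0) • y := rfl

theorem eq_emb (F : E) : F = emb 0 (F 0) + emb 1 (F 1) := by
  funext i
  rw [Pi.add_apply, emb_apply, emb_apply]
  fin_cases i <;> simp

theorem tens_eq (z ξ : V) : tens z ξ = z 0 • emb 0 ξ + z 1 • emb 1 ξ := by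
  funext i
  rw [Pi.add_apply, Pi.smul_apply, Pi.smul_apply, emb_apply, emb_apply]
  fin_cases i <;> funext l <;> simp [tens]

theorem eq_basis (y : V) : y = y 0 • (![1, 0] : V) + y 1 • (![0, 1] : V) := by
  funext i
  fin_cases i <;> simp

theorem nn_emb_one (y : V) : nn (emb 1 y) = dp y y := by
  unfold nn dp
  simp only [emb_apply]
  simp
  ring

section B

variable (B : E →L[ℝ] E →L[ℝ] ℝ)

theorem B_exp (hB : ∀ F G, B F G = B G F) (G : E) : B G G =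
    B (emb 0 (G 0)) (emb 0 (G 0)) + 2 * B (emb 0 (G 0)) (emb 1 (G 1)) +
      B (emb 1 (G 1)) (emb 1 (G 1)) := by
  conv_lhs => rw [eq_emb G]
  simp only [map_add, _root_.add_apply]
  rw [hB (emb 1 (G 1)) (emb 0 (G 0))]
  ring

theorem B_bas (y s : V) : B (emb 0 y) (emb 1 s) =
    B (emb 0 ![1, 0]) (emb 1 ![1, 0]) * (y 0 * s 0) +
    B (emb 0 ![1, 0]) (emb 1 ![0, 1]) * (y 0 * s 1) +
    B (emb 0 ![0, 1]) (emb 1 ![1, 0]) * (y 1 * s 0) +
    B (emb 0 ![0, 1]) (emb 1 ![0, 1]) * (y 1 * s 1) := by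
  conv_lhs => rw [eq_basis y, eq_basis s]
  simp only [map_add, map_smul, _root_.add_apply, _root_.smul_apply, smul_eq_mul]
  ring

theorem B_bas1 (hB : ∀ F G, B F G = B G F) (y : V) : B (emb 1 y) (emb 1 y) =
    B (emb 1 ![1, 0]) (emb 1 ![1, 0]) * y 0 ^ 2 +
    2 * B (emb 1 ![1, 0]) (emb 1 ![0, 1]) * (y 0 * y 1) +
    B (emb 1 ![0, 1]) (emb 1 ![0, 1]) * y 1 ^ 2 := by
  conv_lhs => rw [eq_basis y]
  simp only [map_add, map_smul, _root_.add_apply, _root_.smul_apply, smul_eq_mul]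
  rw [hB (emb 1 ![0, 1]) (emb 1 ![1, 0])]
  ring

end B

/-- first row of a symmetric matrix -/
noncomputable def T0 : (Fin 3 → ℝ) →L[ℝ] V :=
  ContinuousLinearMap.pi ![ContinuousLinearMap.proj 0, ContinuousLinearMap.proj 1]

/-- second row of a symmetric matrix -/
noncomputable def T1 : (Fin 3 → ℝ) →L[ℝ] V :=
  ContinuousLinearMap.pi ![ContinuousLinearMap.proj 1, ContinuousLinearMap.proj 2]

theorem T0_apply (x : Fin 3 → ℝ) : T0 x = ![x 0, x 1] := by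
  funext i
  fin_cases i <;> simp [T0]

theorem T1_apply (x : Fin 3 → ℝ) : T1 x = ![x 1, x 2] := by
  funext i
  fin_cases i <;> simp [T1]

theorem exists_sq (x : Fin 3 → ℝ) (h : x 0 * x 2 - x 1 * x 1 = 0) :
    ∃ (t : ℝ) (ξ : V), x = ![t * ξ 0 ^ 2, t * (ξ 0 * ξ 1), t * ξ 1 ^ 2] := by
  by_cases h0 : x 0 = 0
  · have h1 : x 1 = 0 := by
      rw [h0, zero_mul, zero_sub, neg_eq_zero] at h
      exact mul_self_eq_zero.mp h
    refine ⟨x 2, ![0, 1], ?_⟩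
    funext i
    fin_cases i <;> simp [h0, h1]
  · refine ⟨1 / x 0, ![x 0, x 1], ?_⟩
    funext i
    fin_cases i <;> simp
    · field_simp
    · field_simp
    · field_simp
      linarith

theorem norm_sq_le3 (t : ℝ) (ξ : V) :
    ‖(![t * ξ 0 ^ 2, t * (ξ 0 * ξ 1), t * ξ 1 ^ 2] : Fin 3 → ℝ)‖ ^ 2 ≤ t ^ 2 * dp ξ ξ ^ 2 := by
  have h0 : 0 ≤ dp ξ ξ := by
    unfold dp
    nlinarith [mul_self_nonneg (ξ 0), mul_self_nonneg (ξ 1)]
  have h1 : ‖(![t * ξ 0 ^ 2, t * (ξ 0 * ξ 1), t * ξ 1 ^ 2] : Fin 3 → ℝ)‖ ≤ |t| * dp ξ ξ := by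
    rw [pi_norm_le_iff_of_nonneg (by positivity)]
    intro i
    have k0 : ξ 0 ^ 2 ≤ dp ξ ξ := by unfold dp; nlinarith [mul_self_nonneg (ξ 1)]
    have k2 : ξ 1 ^ 2 ≤ dp ξ ξ := by unfold dp; nlinarith [mul_self_nonneg (ξ 0)]
    have k1 : |ξ 0 * ξ 1| ≤ dp ξ ξ := by
      rw [abs_le]
      unfold dp
      constructor <;> nlinarith [sq_nonneg (ξ 0 - ξ 1), sq_nonneg (ξ 0 + ξ 1), sq_nonneg (ξ 0),
        sq_nonneg (ξ 1)]
    fin_cases i
    · simp only [Real.norm_eq_abs]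
      change |t * ξ 0 ^ 2| ≤ _
      rw [abs_mul, abs_of_nonneg (sq_nonneg (ξ 0))]
      exact mul_le_mul_of_nonneg_left k0 (abs_nonneg _)
    · change ‖t * (ξ 0 * ξ 1)‖ ≤ _
      rw [Real.norm_eq_abs, abs_mul]
      exact mul_le_mul_of_nonneg_left k1 (abs_nonneg _)
    · change ‖t * ξ 1 ^ 2‖ ≤ _
      rw [Real.norm_eq_abs, abs_mul, abs_of_nonneg (sq_nonneg (ξ 1))]
      exact mul_le_mul_of_nonneg_left k2 (abs_nonneg _)
  calc _ ≤ (|t| * dp ξ ξ) ^ 2 := pow_le_pow_left₀ (norm_nonneg _) h1 2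
    _ = t ^ 2 * dp ξ ξ ^ 2 := by rw [mul_pow, sq_abs]

/-- the normalized case -/
theorem rsn (hFORM : S_FORM) (ψ : V → ℝ) (B : E →L[ℝ] E →L[ℝ] ℝ) (η : ℝ)
    (hψ : ContDiff ℝ 2 ψ) (hB : ∀ F G, B F G = B G F) (hη : 0 < η)
    (hyp : ∀ y z ξ : V, η * dp z z * dp ξ ξ ≤ hs ψ y (z 0 • ξ) (z 0 • ξ) +
      2 * B (tens z ξ) (tens z ξ))
    (hn : ∀ y : V, 2 * B (emb 1 y) (emb 1 y) = dp y y) :
    Quasiconvex (fun F => ψ (F 0) + B F F) := by
  set b00 := B (emb 0 ![1, 0]) (emb 1 ![1, 0]) with hb00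
  set b01 := B (emb 0 ![1, 0]) (emb 1 ![0, 1]) with hb01
  set b10 := B (emb 0 ![0, 1]) (emb 1 ![1, 0]) with hb10
  set b11 := B (emb 0 ![0, 1]) (emb 1 ![0, 1]) with hb11
  set bT : (Fin 3 → ℝ) →L[ℝ] ℝ := b00 • ContinuousLinearMap.proj 0 +
    (b01 + b10) • ContinuousLinearMap.proj 1 + b11 • ContinuousLinearMap.proj 2 with hbT
  have hbTa : ∀ x, bT x = b00 * x 0 + (b01 + b10) * x 1 + b11 * x 2 := by
    intro x
    rfl
  set B00 : V →L[ℝ] V →L[ℝ] ℝ := B.bilinearComp (emb 0) (emb 0) with hB00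
  have hB00s : ∀ x y, B00 x y = B00 y x := fun x y => hB _ _
  set G : V → (Fin 3 → ℝ) →L[ℝ] (Fin 3 → ℝ) →L[ℝ] ℝ := fun y =>
    ((fderiv ℝ (fderiv ℝ ψ) y).bilinearComp T0 T0 + (fderiv ℝ (fderiv ℝ ψ) y).bilinearComp T1 T1)
      + ((2 : ℝ) • (B00.bilinearComp T0 T0 + B00.bilinearComp T1 T1) -
        (4 : ℝ) • bT.smulRight bT) with hG
  have hGapp : ∀ y X X', G y X X' = (hs ψ y (T0 X) (T0 X') + hs ψ y (T1 X) (T1 X')) +
      (2 * (B00 (T0 X) (T0 X') + B00 (T1 X) (T1 X')) - 4 * (bT X * bT X')) := by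
    intro y X X'
    rfl
  have hGc : Continuous G := ((continuous_pull (continuous_hess hψ) T0).add
    (continuous_pull (continuous_hess hψ) T1)).add continuous_const
  obtain ⟨θ₀, hθ₀, hform⟩ := hFORM (Fin 3 → ℝ) G T0 T1 η hGc
    (by
      intro y x x'
      rw [hGapp, hGapp, hs_symm hψ y (T0 x), hs_symm hψ y (T1 x), hB00s (T0 x), hB00s (T1 x),
        mul_comm (bT x)])
    ⟨![1, 0, 1], by simp [wd, T0_apply, T1_apply]⟩
    ⟨![0, 1, 0], by simp [wd, T0_apply, T1_apply]⟩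
    hη
    (by
      intro y x hx
      rw [T0_apply, T1_apply] at hx
      have hx' : x 0 * x 2 - x 1 * x 1 = 0 := by simpa [wd] using hx
      obtain ⟨t, ξ, rfl⟩ := exists_sq x hx'
      refine (mul_le_mul_of_nonneg_left (norm_sq_le3 t ξ) hη.le).trans ?_
      rw [hGapp, T0_apply, T1_apply, hbTa]
      have e0 : (![(![t * ξ 0 ^ 2, t * (ξ 0 * ξ 1), t * ξ 1 ^ 2] : Fin 3 → ℝ) 0,
          (![t * ξ 0 ^ 2, t * (ξ 0 * ξ 1), t * ξ 1 ^ 2] : Fin 3 → ℝ) 1] : V) =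
          (t * ξ 0) • ξ := by
        funext i
        fin_cases i <;> simp <;> ring
      have e1 : (![(![t * ξ 0 ^ 2, t * (ξ 0 * ξ 1), t * ξ 1 ^ 2] : Fin 3 → ℝ) 1,
          (![t * ξ 0 ^ 2, t * (ξ 0 * ξ 1), t * ξ 1 ^ 2] : Fin 3 → ℝ) 2] : V) =
          (t * ξ 1) • ξ := by
        funext i
        fin_cases i <;> simp <;> ring
      rw [e0, e1]
      have hsm : ∀ c : ℝ, hs ψ y (c • ξ) (c • ξ) = c ^ 2 * hs ψ y ξ ξ := by
        intro c
        unfold hs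
        simp
        ring
      have hBm : ∀ c : ℝ, B00 (c • ξ) (c • ξ) = c ^ 2 * B00 ξ ξ := by
        intro c
        simp
        ring
      rw [hsm, hsm, hBm, hBm]
      have hb : b00 * (![t * ξ 0 ^ 2, t * (ξ 0 * ξ 1), t * ξ 1 ^ 2] : Fin 3 → ℝ) 0 +
          (b01 + b10) * (![t * ξ 0 ^ 2, t * (ξ 0 * ξ 1), t * ξ 1 ^ 2] : Fin 3 → ℝ) 1 +
          b11 * (![t * ξ 0 ^ 2, t * (ξ 0 * ξ 1), t * ξ 1 ^ 2] : Fin 3 → ℝ) 2 =
          t * B (emb 0 ξ) (emb 1 ξ) := by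
        rw [B_bas B ξ ξ, ← hb00, ← hb01, ← hb10, ← hb11]
        simp
        ring
      rw [hb]
      set N := dp ξ ξ with hN
      set bb := B (emb 0 ξ) (emb 1 ξ) with hbb
      have hN0 : 0 ≤ N := by
        rw [hN]
        unfold dp
        nlinarith [mul_self_nonneg (ξ 0), mul_self_nonneg (ξ 1)]
      have hNe : N = ξ 0 ^ 2 + ξ 1 ^ 2 := by
        rw [hN]
        unfold dp
        ring
      rcases hN0.eq_or_lt with h0 | hpos
      · have hξ0 : ξ 0 = 0 := by nlinarith [sq_nonneg (ξ 0), sq_nonneg (ξ 1)]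
        have hξ1 : ξ 1 = 0 := by nlinarith [sq_nonneg (ξ 0), sq_nonneg (ξ 1)]
        have hξ : ξ = 0 := by
          funext i
          fin_cases i
          · exact hξ0
          · exact hξ1
        have hbb0 : bb = 0 := by
          rw [hbb, hξ]
          simp
        rw [← h0, hbb0, hξ0, hξ1]
        simp
      · have h1 := hyp y ![1, -2 * bb / N] ξ
        have ht : 2 * B (tens ![1, -2 * bb / N] ξ) (tens ![1, -2 * bb / N] ξ) =
            2 * B00 ξ ξ + 4 * (-2 * bb / N) * bb + (-2 * bb / N) ^ 2 * N := by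
          rw [tens_eq]
          simp only [Matrix.cons_val_zero, Matrix.cons_val_one, one_smul, map_add, map_smul,
            _root_.add_apply, _root_.smul_apply, smul_eq_mul]
          rw [hB (emb 1 ξ) (emb 0 ξ), ← hbb]
          have h2 := hn ξ
          rw [← hN] at h2
          have h3 : B00 ξ ξ = B (emb 0 ξ) (emb 0 ξ) := rfl
          rw [h3]
          linear_combination ((-2 * bb / N) ^ 2) * h2
        rw [ht] at h1
        have hz : (![1, -2 * bb / N] : V) 0 • ξ = ξ := by simp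
        have hd : dp (![1, -2 * bb / N] : V) ![1, -2 * bb / N] = 1 + (-2 * bb / N) ^ 2 := by
          simp [dp]
          ring
        rw [hz, hd] at h1
        have h4 : η * N ^ 2 ≤ (hs ψ y ξ ξ + 2 * B00 ξ ξ) * N - 4 * bb ^ 2 := by
          have h5 := mul_le_mul_of_nonneg_right h1 hpos.le
          have h6 : (hs ψ y ξ ξ + (2 * B00 ξ ξ + 4 * (-2 * bb / N) * bb +
              (-2 * bb / N) ^ 2 * N)) * N = (hs ψ y ξ ξ + 2 * B00 ξ ξ) * N - 4 * bb ^ 2 := by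
            field_simp
            ring
          rw [h6] at h5
          have h7 : 0 ≤ η * (-2 * bb / N) ^ 2 * N * N := by positivity
          nlinarith
        have h8 := mul_le_mul_of_nonneg_left h4 (sq_nonneg t)
        rw [hNe] at h8 ⊢
        nlinarith)
  -- the constant form
  set D : E →L[ℝ] E →L[ℝ] ℝ := (4 * b00) • (ent 0 0).smulRight (ent 1 1)
    - (4 * b11) • (ent 0 1).smulRight (ent 1 0) - (4 * b01) • (ent 0 0).smulRight (ent 1 0)
    + (4 * b10) • (ent 0 1).smulRight (ent 1 1) + (2 : ℝ) • (ent 1 0).smulRight (ent 1 1) with hD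
  have hDapp : ∀ F G : E, D F G = 4 * b00 * (F 0 0 * G 1 1) - 4 * b11 * (F 0 1 * G 1 0) -
      4 * b01 * (F 0 0 * G 1 0) + 4 * b10 * (F 0 1 * G 1 1) + 2 * (F 1 0 * G 1 1) := by
    intro F G
    rfl
  have hW1 : ContDiff ℝ 2 (fun F : E => ψ (row 0 F)) := hψ.comp (row 0).contDiff
  have hW2 : ContDiff ℝ 2 (fun F : E => B F F) := contDiff_quad _ 2
  have hD1 : ContDiff ℝ 1 (fun F : E => D F) := D.contDiff
  refine qc_of_cert' (W' := fun F : E => ψ (row 0 F) + B F F)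
    (θ := fun F => (θ₀ (row 0 F)).comp (row 0) + D F) (fun _ => rfl) (hW1.add hW2)
    ((contDiff_comp hθ₀ (row 0)).add hD1) ?_
  intro F G₀ G₁ hsym
  rw [hs_add hW1 hW2, hs_add hW1 hW2, hs_comp hψ, hs_comp hψ, hs_quad, hs_quad,
    ed_add (contDiff_comp hθ₀ (row 0)) hD1, ed_comp hθ₀, ed_clm]
  have h1 := hform (row 0 F) ![G₀ 0 0, G₀ 0 1, G₁ 0 1]
  have s0 := hsym 0
  have s1 := hsym 1
  have t0 : T0 ![G₀ 0 0, G₀ 0 1, G₁ 0 1] = row 0 G₀ := by
    rw [T0_apply]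
    funext i
    fin_cases i <;> simp
  have t1 : T1 ![G₀ 0 0, G₀ 0 1, G₁ 0 1] = row 0 G₁ := by
    rw [T1_apply]
    funext i
    fin_cases i <;> simp [s0]
  rw [hGapp, t0, t1, hbTa] at h1
  have hh0 : B00 (row 0 G₀) (row 0 G₀) = B (emb 0 (G₀ 0)) (emb 0 (G₀ 0)) := rfl
  have hh1 : B00 (row 0 G₁) (row 0 G₁) = B (emb 0 (G₁ 0)) (emb 0 (G₁ 0)) := rfl
  rw [hh0, hh1] at h1
  have n0 := hn (G₀ 1)
  have n1 := hn (G₁ 1)
  unfold dp at n0 n1
  rw [B_exp B hB G₀, B_exp B hB G₁, B_bas B (G₀ 0) (G₀ 1), B_bas B (G₁ 0) (G₁ 1), ← hb00, ← hb01,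
    ← hb10, ← hb11, hDapp, hDapp]
  simp only [Matrix.cons_val_zero, Matrix.cons_val_one, Matrix.cons_val] at h1
  rw [← s0] at *
  rw [← s1] at *
  have h2 := sq_nonneg (2 * (b00 * G₀ 0 0 + (b01 + b10) * G₀ 0 1 + b11 * G₁ 0 1) +
    (G₀ 1 0 + G₁ 1 1))
  nlinarith

end Pool.Agent.Q79.MD
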